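import Pool.Agent.Y355.CPI.Iso
import Pool.Agent.H604C.P_nt_main

/-!
# Isomorphisms between cohesive powers of number fields

All isomorphisms between the cohesive powers of two number fields (with arbitrary computable
presentations) are determined: they are exactly the maps induced by the isomorphisms between the
two fields. In particular this contains the determination of the automorphism groups.
-/

namespace Pool.Agent.Results.MP_2cb16d_lc.AllIsomorphisms

open Pool.Agent.Helper437.CP

/-- The isomorphism `α` of cohesive powers is induced by the isomorphism `σ` of fields: `σ` is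
computable with respect to the presentations, and `α` maps the class of `φ` to the class of `φ`
followed by `σ`. -/
def Induced {F K : Type} [Field F] [Field K] (P : Pres F) (Q : Pres K) (C : Set ℕ) (σ : F ≃+* K)
    (α : CohPow P C ≃+* CohPow Q C) : Prop :=
  ∃ h : Computable fun m : ℕ => Q.e (σ (P.e.symm m)),
    ∀ φ : D C, α (CohPow.mk P C φ) = CohPow.mk Q C (φ.map (fun m : ℕ => Q.e (σ (P.e.symm m))) h)

/-- **Isomorphisms of cohesive powers of two number fields.** Every isomorphism of the fields
induces one of the cohesive powers, and every isomorphism of the cohesive powers is induced by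
exactly one isomorphism of the fields. -/
def AllInduced (F K : Type) [Field F] [Field K] : Prop :=
  ∀ (P : Pres F) (Q : Pres K) (C : Set ℕ), Cohesive C →
    (∀ σ : F ≃+* K, ∃ α : CohPow P C ≃+* CohPow Q C, Induced P Q C σ α) ∧
    (∀ α : CohPow P C ≃+* CohPow Q C, ∃! σ : F ≃+* K, Induced P Q C σ α)

/-- The group of automorphisms of the cohesive power is isomorphic to the group of automorphisms
of the field, by induced automorphisms. -/
def AutGroup (F : Type) [Field F] : Prop :=
  ∀ (P : Pres F) (C : Set ℕ), Cohesive C →
    ∃ Φ : RingAut F ≃* RingAut (CohPow P C), ∀ σ : RingAut F, Induced P P C σ (Φ σ)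

/-- **All isomorphisms between cohesive powers of number fields.**
(1) Let `F` and `K` be number fields with computable presentations `P` and `Q`, and let `C` be
cohesive. Every isomorphism `σ : F ≃ K` is computable with respect to the two presentations and
induces an isomorphism of the cohesive powers, and every isomorphism of the cohesive powers is
induced by exactly one `σ`.
(2) For one field (and one presentation) this gives an isomorphism of groups
`Aut F ≃ Aut (∏_C F)`; this answers Q1 and Q2. -/
theorem result :
    (∀ (F K : Type) [Field F] [NumberField F] [Field K] [NumberField K], AllInduced F K) ∧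
    (∀ (F : Type) [Field F] [NumberField F], AutGroup F) := by
  refine ⟨?_, ?_⟩
  · intro F K _ _ _ _ P Q C hC
    obtain ⟨Φ, hΦ⟩ := Pool.Agent.Y355.CPI.mainP P Q C (CohNT.nt_main F) hC
    refine ⟨fun σ => ⟨Φ σ, hΦ σ⟩, fun α => ⟨Φ.symm α, ?_, ?_⟩⟩
    · have := hΦ (Φ.symm α)
      rw [Equiv.apply_symm_apply] at this
      exact this
    · rintro τ ⟨h, hτ⟩
      obtain ⟨h', hτ'⟩ := hΦ τ
      rw [Equiv.eq_symm_apply]
      ext x
      obtain ⟨φ, rfl⟩ := mk_surj P C x
      rw [hτ', hτ]
  · intro F _ _ P C hC
    exact main P C (CohNT.nt_main F) hC

end Pool.Agent.Results.MP_2cb16d_lc.AllIsomorphisms
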